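import Pool.Agent.helper17.LQ.SpecQ

/-!
# MP_07c750, project LQ: row `lq:QGR`, the entries of the Gram matrix
-/

open MeasureTheory Set

set_option autoImplicit false

namespace Pool.Agent.LP

noncomputable section

lemma QGR_fib {ι α : Type} [DecidableEq α] (s : Finset ι) (g : ι → α) (t : Finset α) (hg : ∀ i ∈ s, g i ∈ t)
    (c : ℕ) (hc : ∀ a ∈ t, (s.filter fun i => g i = a).card ≤ c) (F : α → ℝ) (hF : ∀ a, 0 ≤ F a) :
    ∑ i ∈ s, F (g i) ≤ (c : ℝ) * ∑ a ∈ t, F a := by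
  rw [← Finset.sum_fiberwise_of_maps_to hg (fun i => F (g i)), Finset.mul_sum]
  refine Finset.sum_le_sum fun a ha => ?_
  have h1 : ∑ i ∈ s.filter (fun i => g i = a), F (g i) = ((s.filter fun i => g i = a).card : ℝ) * F a := by
    rw [← nsmul_eq_mul, ← Finset.sum_const]
    refine Finset.sum_congr rfl fun i hi => ?_
    rw [(Finset.mem_filter.1 hi).2]
  rw [h1]
  exact mul_le_mul_of_nonneg_right (by exact_mod_cast hc a ha) (hF a)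

lemma QGR_tel (n0 m : ℕ) : ∑ i ∈ Finset.range m, 1 / (((n0 + i : ℕ) : ℝ) + 1) ^ 2 ≤
    2 / ((n0 : ℝ) + 1) - 2 / (((n0 + m : ℕ) : ℝ) + 1) := by
  induction m with
  | zero => simp
  | succ m ih =>
    rw [Finset.sum_range_succ]
    have hx : (0 : ℝ) ≤ ((n0 + m : ℕ) : ℝ) := Nat.cast_nonneg _
    have h2 : (((n0 + (m + 1) : ℕ) : ℝ)) = ((n0 + m : ℕ) : ℝ) + 1 := by push_cast; ring
    rw [h2]
    have h1 : 1 / (((n0 + m : ℕ) : ℝ) + 1) ^ 2 ≤ 2 / (((n0 + m : ℕ) : ℝ) + 1) - 2 / (((n0 + m : ℕ) : ℝ) + 1 + 1) := by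
      generalize ((n0 + m : ℕ) : ℝ) = x at hx
      have hx1 : 0 < x + 1 := by linarith
      have hx2 : 0 < x + 1 + 1 := by linarith
      have e : 2 / (x + 1) - 2 / (x + 1 + 1) = 2 / ((x + 1) * (x + 1 + 1)) := by
        field_simp
        ring
      rw [e, div_le_div_iff₀ (by positivity) (by positivity)]
      nlinarith
    linarith

lemma QGR_S {θ b : ℝ} (hθ : 0 < θ) (hb : 0 < b) (L : ℕ) :
    ∑ j ∈ Finset.range L, min (θ ^ 2) (b ^ 2 / ((j : ℝ) + 1) ^ 2) ≤ 3 * (θ * b) ∧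
      ∑ j ∈ Finset.range L, min (θ ^ 2) (b ^ 2 / ((j : ℝ) + 1) ^ 2) ≤ 2 * b ^ 2 := by
  have hnn : ∀ j : ℕ, 0 ≤ min (θ ^ 2) (b ^ 2 / ((j : ℝ) + 1) ^ 2) := fun j => le_min (by positivity) (by positivity)
  have htail : ∀ n0 : ℕ, ∑ i ∈ Finset.range L, min (θ ^ 2) (b ^ 2 / (((n0 + i : ℕ) : ℝ) + 1) ^ 2) ≤
      b ^ 2 * (2 / ((n0 : ℝ) + 1)) := by
    intro n0
    have h1 := QGR_tel n0 L
    have h2 : 0 ≤ 2 / (((n0 + L : ℕ) : ℝ) + 1) := by positivity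
    calc ∑ i ∈ Finset.range L, min (θ ^ 2) (b ^ 2 / (((n0 + i : ℕ) : ℝ) + 1) ^ 2)
        ≤ ∑ i ∈ Finset.range L, b ^ 2 * (1 / (((n0 + i : ℕ) : ℝ) + 1) ^ 2) := by
          refine Finset.sum_le_sum fun i _ => (min_le_right _ _).trans (le_of_eq ?_)
          rw [mul_one_div]
      _ = b ^ 2 * ∑ i ∈ Finset.range L, 1 / (((n0 + i : ℕ) : ℝ) + 1) ^ 2 := by rw [Finset.mul_sum]
      _ ≤ b ^ 2 * (2 / ((n0 : ℝ) + 1)) := mul_le_mul_of_nonneg_left (by linarith) (by positivity)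
  refine ⟨?_, ?_⟩
  · obtain ⟨n0, hn0⟩ : ∃ n0 : ℕ, n0 = ⌊b / θ⌋₊ := ⟨_, rfl⟩
    have hle : (n0 : ℝ) ≤ b / θ := by rw [hn0]; exact Nat.floor_le (by positivity)
    have hlt : b / θ < (n0 : ℝ) + 1 := by rw [hn0]; exact Nat.lt_floor_add_one _
    have h1 : ∑ j ∈ Finset.range L, min (θ ^ 2) (b ^ 2 / ((j : ℝ) + 1) ^ 2) ≤
        ∑ j ∈ Finset.range (n0 + L), min (θ ^ 2) (b ^ 2 / ((j : ℝ) + 1) ^ 2) :=
      Finset.sum_le_sum_of_subset_of_nonneg (Finset.range_mono (Nat.le_add_left L n0)) fun j _ _ => hnn j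
    rw [Finset.sum_range_add] at h1
    have h2 : ∑ j ∈ Finset.range n0, min (θ ^ 2) (b ^ 2 / ((j : ℝ) + 1) ^ 2) ≤ θ * b := by
      calc ∑ j ∈ Finset.range n0, min (θ ^ 2) (b ^ 2 / ((j : ℝ) + 1) ^ 2)
          ≤ ∑ j ∈ Finset.range n0, θ ^ 2 := Finset.sum_le_sum fun j _ => min_le_left _ _
        _ = (n0 : ℝ) * θ ^ 2 := by rw [Finset.sum_const, Finset.card_range, nsmul_eq_mul]
        _ ≤ b / θ * θ ^ 2 := mul_le_mul_of_nonneg_right hle (by positivity)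
        _ = θ * b := by field_simp
    have h3 := htail n0
    have h4 : b ^ 2 * (2 / ((n0 : ℝ) + 1)) ≤ 2 * (θ * b) := by
      have h5 : (0 : ℝ) < (n0 : ℝ) + 1 := by positivity
      have h6 : b < ((n0 : ℝ) + 1) * θ := (div_lt_iff₀ hθ).1 hlt
      rw [← mul_div_assoc, div_le_iff₀ h5]
      nlinarith [mul_pos hb hb, mul_nonneg hb.le (sub_nonneg.2 h6.le)]
    linarith
  · have h1 := htail 0
    have e : ∀ i : ℕ, (((0 + i : ℕ) : ℝ)) = (i : ℝ) := fun i => by rw [zero_add]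
    have h2 : ∑ i ∈ Finset.range L, min (θ ^ 2) (b ^ 2 / (((0 + i : ℕ) : ℝ) + 1) ^ 2) =
        ∑ j ∈ Finset.range L, min (θ ^ 2) (b ^ 2 / ((j : ℝ) + 1) ^ 2) :=
      Finset.sum_congr rfl fun i _ => by rw [e]
    rw [h2] at h1
    refine h1.trans (le_of_eq ?_)
    norm_num
    ring

/-- each index has at most four partners -/
lemma QGR_part (n k : ℕ) : ((PR n).filter fun z => z.1 = k).card ≤ 4 := by
  have h1 : ((PR n).filter fun z => z.1 = k) ⊆ ({(k, k + 2), (k, k + 3), (k, k - 2), (k, k - 3)} : Finset (ℕ × ℕ)) := by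
    rintro ⟨a, l⟩ hz
    obtain ⟨h2, h3⟩ := Finset.mem_filter.1 hz
    have h3' : a = k := h3
    subst h3'
    obtain ⟨-, h4, h5, h6⟩ := Finset.mem_filter.1 h2
    have h4' : a / 2 ≤ l / 2 + 1 := h4
    have h5' : l / 2 ≤ a / 2 + 1 := h5
    have h6' : a + 2 ≤ l ∨ l + 2 ≤ a := h6
    have h7 : l = a + 2 ∨ l = a + 3 ∨ l = a - 2 ∨ l = a - 3 := by omega
    simp only [Finset.mem_insert, Finset.mem_singleton, Prod.mk.injEq, true_and]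
    exact h7
  refine (Finset.card_le_card h1).trans ?_
  exact Finset.card_le_four

/-- each integer part of the distance occurs at most twice -/
lemma QGR_two (κ : ℝ) (m j : ℕ) : ((Finset.range m).filter fun k : ℕ => ⌊|(k : ℝ) - κ|⌋₊ = j).card ≤ 2 := by
  have h1 : ((Finset.range m).filter fun k : ℕ => ⌊|(k : ℝ) - κ|⌋₊ = j).card ≤ (Finset.univ : Finset Bool).card := by
    refine Finset.card_le_card_of_injOn (fun k : ℕ => decide (κ ≤ (k : ℝ))) (fun k _ => Finset.mem_coe.2 (Finset.mem_univ _)) ?_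
    intro k hk l hl hkl
    have hk1 : ⌊|(k : ℝ) - κ|⌋₊ = j := (Finset.mem_filter.1 (Finset.mem_coe.1 hk)).2
    have hl1 : ⌊|(l : ℝ) - κ|⌋₊ = j := (Finset.mem_filter.1 (Finset.mem_coe.1 hl)).2
    have hk2 := (Nat.floor_eq_iff (abs_nonneg _)).1 hk1
    have hl2 := (Nat.floor_eq_iff (abs_nonneg _)).1 hl1
    have hkl' : (κ ≤ (k : ℝ)) ↔ (κ ≤ (l : ℝ)) := by
      have h2 : decide (κ ≤ (k : ℝ)) = decide (κ ≤ (l : ℝ)) := hkl
      exact decide_eq_decide.1 h2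
    have h3 : |(k : ℝ) - l| < 1 := by
      by_cases hc : κ ≤ (k : ℝ)
      · have hc2 := hkl'.1 hc
        rw [abs_of_nonneg (sub_nonneg.2 hc)] at hk2
        rw [abs_of_nonneg (sub_nonneg.2 hc2)] at hl2
        rw [abs_lt]
        constructor <;> linarith [hk2.1, hk2.2, hl2.1, hl2.2]
      · have hc2 : ¬ κ ≤ (l : ℝ) := fun h => hc (hkl'.2 h)
        rw [not_le] at hc hc2
        rw [abs_of_neg (sub_neg.2 hc)] at hk2
        rw [abs_of_neg (sub_neg.2 hc2)] at hl2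
        rw [abs_lt]
        constructor <;> linarith [hk2.1, hk2.2, hl2.1, hl2.2]
    have h4 : |((k : ℤ) - (l : ℤ) : ℤ)| < 1 := by
      have h5 : ((|((k : ℤ) - (l : ℤ) : ℤ)| : ℤ) : ℝ) < ((1 : ℤ) : ℝ) := by
        push_cast
        exact h3
      exact_mod_cast h5
    have h6 := Int.abs_lt_one_iff.1 h4
    omega
  simpa using h1

/-- the sum over the pairs -/
lemma QGR_main (n : ℕ) (q : ℕ → ℝ) (κ NB E θ b : ℝ) (hθ : 0 < θ) (hb : 0 < b) (hNB : 0 ≤ NB) (hE : 0 ≤ E)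
    (hnear : ∀ z ∈ PR n, |(z.1 : ℝ) - κ| < 5 → q z.1 * q z.2 ≤ NB)
    (hfar : ∀ z ∈ PR n, ∀ j : ℕ, 5 ≤ j → (j : ℝ) ≤ |(z.1 : ℝ) - κ| →
      q z.1 * q z.2 ≤ E * min (θ ^ 2) (b ^ 2 / ((j : ℝ) + 1) ^ 2)) :
    ∃ S : ℝ, S ≤ 3 * (θ * b) ∧ S ≤ 2 * b ^ 2 ∧ ∑ z ∈ PR n, q z.1 * q z.2 ≤ 40 * NB + 8 * E * S := by
  obtain ⟨F, hFdef⟩ : ∃ F : ℕ → ℝ, F = fun j : ℕ => if j < 5 then NB else E * min (θ ^ 2) (b ^ 2 / ((j : ℝ) + 1) ^ 2) := ⟨_, rfl⟩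
  have hm0 : ∀ j : ℕ, 0 ≤ min (θ ^ 2) (b ^ 2 / ((j : ℝ) + 1) ^ 2) := fun j => le_min (by positivity) (by positivity)
  have hF0 : ∀ j, 0 ≤ F j := by
    intro j
    rw [hFdef]
    show 0 ≤ if j < 5 then NB else E * min (θ ^ 2) (b ^ 2 / ((j : ℝ) + 1) ^ 2)
    split_ifs
    · exact hNB
    · exact mul_nonneg hE (hm0 j)
  have h1 : ∀ z ∈ PR n, q z.1 * q z.2 ≤ F ⌊|(z.1 : ℝ) - κ|⌋₊ := by
    intro z hz
    rw [hFdef]
    show q z.1 * q z.2 ≤ if ⌊|(z.1 : ℝ) - κ|⌋₊ < 5 then NB else _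
    split_ifs with h
    · refine hnear z hz ?_
      have h2 : ⌊|(z.1 : ℝ) - κ|⌋₊ < 5 := h
      have h3 := (Nat.floor_lt (abs_nonneg ((z.1 : ℝ) - κ))).1 h2
      exact_mod_cast h3
    · exact hfar z hz _ (not_lt.1 h) (Nat.floor_le (abs_nonneg _))
  obtain ⟨L, hL⟩ := Finset.exists_nat_subset_range ((Finset.range (2 ^ n)).image fun k : ℕ => ⌊|(k : ℝ) - κ|⌋₊)
  have h2 : ∑ z ∈ PR n, F ⌊|(z.1 : ℝ) - κ|⌋₊ ≤ ((4 : ℕ) : ℝ) * ∑ k ∈ Finset.range (2 ^ n), F ⌊|(k : ℝ) - κ|⌋₊ :=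
    QGR_fib (PR n) (fun z : ℕ × ℕ => z.1) (Finset.range (2 ^ n))
      (fun z hz => (Finset.mem_product.1 (Finset.mem_filter.1 hz).1).1) 4 (fun k _ => QGR_part n k)
      (fun k => F ⌊|(k : ℝ) - κ|⌋₊) fun k => hF0 _
  have h3 : ∑ k ∈ Finset.range (2 ^ n), F ⌊|(k : ℝ) - κ|⌋₊ ≤ ((2 : ℕ) : ℝ) * ∑ j ∈ Finset.range L, F j :=
    QGR_fib (Finset.range (2 ^ n)) (fun k : ℕ => ⌊|(k : ℝ) - κ|⌋₊) (Finset.range L)
      (fun k hk => hL (Finset.mem_image_of_mem _ hk)) 2 (fun j _ => QGR_two κ (2 ^ n) j) F hF0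
  have h4 : ∑ j ∈ Finset.range L, F j ≤ 5 * NB + E * ∑ j ∈ Finset.range L, min (θ ^ 2) (b ^ 2 / ((j : ℝ) + 1) ^ 2) := by
    have h5 : ∀ j : ℕ, F j ≤ (if j < 5 then NB else 0) + E * min (θ ^ 2) (b ^ 2 / ((j : ℝ) + 1) ^ 2) := by
      intro j
      rw [hFdef]
      show (if j < 5 then NB else E * min (θ ^ 2) (b ^ 2 / ((j : ℝ) + 1) ^ 2)) ≤ _
      have h6 := mul_nonneg hE (hm0 j)
      split_ifs <;> linarith
    refine (Finset.sum_le_sum fun j _ => h5 j).trans ?_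
    rw [Finset.sum_add_distrib, ← Finset.mul_sum]
    refine add_le_add_left ?_ _
    calc ∑ j ∈ Finset.range L, (if j < 5 then NB else 0) = ∑ j ∈ (Finset.range L).filter (fun j => j < 5), NB := by
          rw [Finset.sum_filter]
      _ ≤ ∑ j ∈ Finset.range 5, NB := by
          refine Finset.sum_le_sum_of_subset_of_nonneg (fun j hj => ?_) fun _ _ _ => hNB
          exact Finset.mem_range.2 (Finset.mem_filter.1 hj).2
      _ = 5 * NB := by rw [Finset.sum_const, Finset.card_range, nsmul_eq_mul]; norm_num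
  obtain ⟨hS1, hS2⟩ := QGR_S hθ hb L
  refine ⟨_, hS1, hS2, ?_⟩
  have h7 := Finset.sum_le_sum h1
  push_cast at h2 h3
  linarith

theorem QGR_proof (h : QOS_stmt) : QGR_stmt := by
  intro C1 hC1
  obtain ⟨C0, hC0, hQ⟩ := h C1 hC1
  have hC0' : 0 < C0 := by linarith
  refine ⟨656 * C0 ^ 2, by nlinarith, ?_⟩
  intro X X' t t' T0 N n hX hX' hT0 hTN h1 h2 h3 h4
  obtain ⟨u0, hu⟩ := hQ X X' t t' T0 N hX hX' hT0 hTN h1 h2 h3 h4
  obtain ⟨R, hR⟩ : ∃ R : ℝ, R = dR N X t X' t' := ⟨_, rfl⟩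
  obtain ⟨M, hM⟩ : ∃ M : ℝ, M = N / T0 := ⟨_, rfl⟩
  obtain ⟨θ, hθ⟩ : ∃ θ : ℝ, θ = 4 / (2 : ℝ) ^ n := ⟨_, rfl⟩
  have hR1 : 1 ≤ R := by rw [hR]; exact le_max_left _ _
  have hR0 : 0 < R := by linarith
  have hM1 : 1 ≤ M := by rw [hM, one_le_div (by linarith)]; exact hTN
  have hθ0 : 0 < θ := by rw [hθ]; positivity
  have hs0 : 0 < Real.sqrt R := Real.sqrt_pos.2 hR0
  have hss : Real.sqrt R * Real.sqrt R = R := Real.mul_self_sqrt hR0.le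
  rw [← hR, ← hM, ← hθ]
  rw [← hR, ← hM] at hu
  -- the points
  have hxk : ∀ k : ℕ, xk n k = -2 + (k : ℝ) * θ := by
    intro k
    rw [hθ]
    unfold xk
    ring
  have h2n : (2 : ℝ) ^ n * θ = 4 := by rw [hθ]; field_simp
  obtain ⟨q, hq⟩ : ∃ q : ℕ → ℝ, q = fun k => ‖ipj X t X' t' (xk n k) (xk n (k + 1))‖ := ⟨_, rfl⟩
  have hgs : gs X t X' t' n = ∑ z ∈ PR n, q z.1 * q z.2 := by rw [hq]; rfl
  have hq0 : ∀ k, 0 ≤ q k := fun k => by rw [hq]; exact norm_nonneg _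
  have hqk : ∀ k : ℕ, k < 2 ^ n → q k ≤ C0 * θ ∧ q k * Real.sqrt R ≤ C0 * M ∧
      ∀ d : ℝ, 0 < d → (∀ s : ℝ, (k : ℝ) ≤ s → s ≤ (k : ℝ) + 1 → d ≤ |(-2 + s * θ) - u0|) → q k * (R * d) ≤ C0 * M := by
    intro k hk
    have hk0 : (0 : ℝ) ≤ (k : ℝ) := Nat.cast_nonneg k
    have hk1 : (k : ℝ) + 1 ≤ (2 : ℝ) ^ n := by exact_mod_cast hk
    have ha : -2 ≤ xk n k := by rw [hxk]; nlinarith
    have hbb : xk n (k + 1) = xk n k + θ := by rw [hxk, hxk]; push_cast; ring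
    have hc : xk n k ≤ xk n (k + 1) := by rw [hbb]; linarith
    have hd : xk n (k + 1) ≤ 2 := by
      rw [hxk]
      push_cast
      have h5 : ((k : ℝ) + 1) * θ ≤ (2 : ℝ) ^ n * θ := mul_le_mul_of_nonneg_right hk1 hθ0.le
      linarith
    obtain ⟨e1, e2, e3⟩ := hu (xk n k) (xk n (k + 1)) ha hc hd
    have hqe : q k = ‖ipj X t X' t' (xk n k) (xk n (k + 1))‖ := by rw [hq]
    rw [← hqe] at e1 e2 e3
    refine ⟨?_, e2, ?_⟩
    · have e4 : xk n (k + 1) - xk n k = θ := by rw [hbb]; ring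
      rwa [e4] at e1
    · intro d hd0 hs
      refine e3 d hd0 fun u hu' => ?_
      have h5 := hs ((u + 2) / θ) ?_ ?_
      · have e5 : -2 + (u + 2) / θ * θ = u := by rw [div_mul_cancel₀ _ hθ0.ne']; ring
        rwa [e5] at h5
      · rw [le_div_iff₀ hθ0]
        have h6 := hu'.1
        rw [hxk] at h6
        linarith
      · rw [div_le_iff₀ hθ0]
        have h6 := hu'.2
        rw [hbb, hxk] at h6
        linarith
  obtain ⟨κ, hκ⟩ : ∃ κ : ℝ, κ = (u0 + 2) / θ := ⟨_, rfl⟩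
  have hu0 : u0 = -2 + κ * θ := by rw [hκ, div_mul_cancel₀ _ hθ0.ne']; ring
  have hdist : ∀ s : ℝ, |(-2 + s * θ) - u0| = |s - κ| * θ := by
    intro s
    rw [hu0]
    have e : -2 + s * θ - (-2 + κ * θ) = (s - κ) * θ := by ring
    rw [e, abs_mul, abs_of_pos hθ0]
  have hPR : ∀ z ∈ PR n, z.1 < 2 ^ n ∧ z.2 < 2 ^ n ∧ (z.1 + 2 ≤ z.2 ∨ z.2 + 2 ≤ z.1) ∧ z.2 ≤ z.1 + 3 ∧ z.1 ≤ z.2 + 3 := by
    intro z hz
    obtain ⟨h5, h6, h7, h8⟩ := Finset.mem_filter.1 hz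
    obtain ⟨h9, h10⟩ := Finset.mem_product.1 h5
    refine ⟨Finset.mem_range.1 h9, Finset.mem_range.1 h10, h8, ?_, ?_⟩ <;> omega
  -- one of the two intervals is at distance at least `θ/2`
  have hone : ∀ k l : ℕ, k + 2 ≤ l → (∀ s : ℝ, (k : ℝ) ≤ s → s ≤ (k : ℝ) + 1 → θ / 2 ≤ |(-2 + s * θ) - u0|) ∨
      (∀ s : ℝ, (l : ℝ) ≤ s → s ≤ (l : ℝ) + 1 → θ / 2 ≤ |(-2 + s * θ) - u0|) := by
    intro k l hkl
    have hkl' : (k : ℝ) + 2 ≤ (l : ℝ) := by exact_mod_cast hkl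
    rcases le_total ((k : ℝ) + 3 / 2) κ with hc | hc
    · left
      intro s _ hs2
      rw [hdist]
      have h5 : 1 / 2 ≤ |s - κ| := by
        rw [abs_sub_comm]
        exact le_trans (by linarith) (le_abs_self _)
      nlinarith
    · right
      intro s hs1 _
      rw [hdist]
      have h5 : 1 / 2 ≤ |s - κ| := le_trans (by linarith) (le_abs_self _)
      nlinarith
  have hone' : ∀ z ∈ PR n, ∃ k l : ℕ, k < 2 ^ n ∧ l < 2 ^ n ∧ q z.1 * q z.2 = q k * q l ∧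
      (∀ s : ℝ, (l : ℝ) ≤ s → s ≤ (l : ℝ) + 1 → θ / 2 ≤ |(-2 + s * θ) - u0|) := by
    intro z hz
    obtain ⟨h5, h6, h7, -, -⟩ := hPR z hz
    rcases h7 with h7 | h7
    · rcases hone _ _ h7 with h8 | h8
      · exact ⟨z.2, z.1, h6, h5, mul_comm _ _, h8⟩
      · exact ⟨z.1, z.2, h5, h6, rfl, h8⟩
    · rcases hone _ _ h7 with h8 | h8
      · exact ⟨z.1, z.2, h5, h6, rfl, h8⟩
      · exact ⟨z.2, z.1, h6, h5, mul_comm _ _, h8⟩
  -- the near pairs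
  have hhalf : ∀ l : ℕ, l < 2 ^ n → (∀ s : ℝ, (l : ℝ) ≤ s → s ≤ (l : ℝ) + 1 → θ / 2 ≤ |(-2 + s * θ) - u0|) →
      q l ≤ 2 * C0 * M / (R * θ) := by
    intro l hl hs
    have h5 := (hqk l hl).2.2 (θ / 2) (by linarith) hs
    rw [le_div_iff₀ (by positivity)]
    linarith
  have hnear1 : ∀ z ∈ PR n, q z.1 * q z.2 ≤ 2 * C0 ^ 2 * M / R := by
    intro z hz
    obtain ⟨k, l, hk, hl, e, hs⟩ := hone' z hz
    rw [e]
    calc q k * q l ≤ (C0 * θ) * (2 * C0 * M / (R * θ)) :=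
          mul_le_mul (hqk k hk).1 (hhalf l hl hs) (hq0 l) (by positivity)
      _ = 2 * C0 ^ 2 * M / R := by field_simp
  have hnear2 : ∀ z ∈ PR n, q z.1 * q z.2 ≤ 2 * C0 ^ 2 * M ^ 2 / (R * Real.sqrt R * θ) := by
    intro z hz
    obtain ⟨k, l, hk, hl, e, hs⟩ := hone' z hz
    rw [e]
    have h5 : q k ≤ C0 * M / Real.sqrt R := by rw [le_div_iff₀ hs0]; exact (hqk k hk).2.1
    calc q k * q l ≤ (C0 * M / Real.sqrt R) * (2 * C0 * M / (R * θ)) :=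
          mul_le_mul h5 (hhalf l hl hs) (hq0 l) (by positivity)
      _ = 2 * C0 ^ 2 * M ^ 2 / (R * Real.sqrt R * θ) := by field_simp
  -- the far pairs
  obtain ⟨b, hb⟩ : ∃ b : ℝ, b = 6 * M / (R * θ) := ⟨_, rfl⟩
  have hb0 : 0 < b := by rw [hb]; positivity
  have hfar : ∀ z ∈ PR n, ∀ j : ℕ, 5 ≤ j → (j : ℝ) ≤ |(z.1 : ℝ) - κ| →
      q z.1 * q z.2 ≤ C0 ^ 2 * min (θ ^ 2) (b ^ 2 / ((j : ℝ) + 1) ^ 2) := by
    intro z hz j hj hjz
    obtain ⟨h5, h6, -, h8, h9⟩ := hPR z hz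
    have hj5 : (5 : ℝ) ≤ (j : ℝ) := by exact_mod_cast hj
    have h8' : (z.2 : ℝ) ≤ (z.1 : ℝ) + 3 := by exact_mod_cast h8
    have h9' : (z.1 : ℝ) ≤ (z.2 : ℝ) + 3 := by exact_mod_cast h9
    have hd : ∀ s : ℝ, (z.1 : ℝ) - 3 ≤ s → s ≤ (z.1 : ℝ) + 4 → θ * (((j : ℝ) + 1) / 6) ≤ |(-2 + s * θ) - u0| := by
      intro s hs1 hs2
      rw [hdist, mul_comm]
      refine mul_le_mul_of_nonneg_right ?_ hθ0.le
      have h10 : |(z.1 : ℝ) - κ| ≤ |s - κ| + 4 := by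
        have h11 : (z.1 : ℝ) - κ = (s - κ) + ((z.1 : ℝ) - s) := by ring
        rw [h11]
        refine (abs_add_le _ _).trans (add_le_add_right ?_ _)
        rw [abs_le]
        constructor <;> linarith
      linarith
    have hbd : ∀ k : ℕ, k < 2 ^ n → (∀ s : ℝ, (k : ℝ) ≤ s → s ≤ (k : ℝ) + 1 → θ * (((j : ℝ) + 1) / 6) ≤ |(-2 + s * θ) - u0|) →
        q k ≤ C0 * (b / ((j : ℝ) + 1)) := by
      intro k hk hs
      have h10 := (hqk k hk).2.2 (θ * (((j : ℝ) + 1) / 6)) (by positivity) hs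
      have e : C0 * (b / ((j : ℝ) + 1)) = C0 * M / (R * (θ * (((j : ℝ) + 1) / 6))) := by
        rw [hb]
        field_simp
      rw [e, le_div_iff₀ (by positivity)]
      exact h10
    have hA := hbd z.1 h5 fun s hs1 hs2 => hd s (by linarith) (by linarith)
    have hB := hbd z.2 h6 fun s hs1 hs2 => hd s (by linarith) (by linarith)
    have hA' := (hqk z.1 h5).1
    have hB' := (hqk z.2 h6).1
    have i1 : q z.1 * q z.2 ≤ C0 ^ 2 * θ ^ 2 := by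
      calc q z.1 * q z.2 ≤ (C0 * θ) * (C0 * θ) := mul_le_mul hA' hB' (hq0 _) (by positivity)
        _ = C0 ^ 2 * θ ^ 2 := by ring
    have i2 : q z.1 * q z.2 ≤ C0 ^ 2 * (b ^ 2 / ((j : ℝ) + 1) ^ 2) := by
      calc q z.1 * q z.2 ≤ (C0 * (b / ((j : ℝ) + 1))) * (C0 * (b / ((j : ℝ) + 1))) := mul_le_mul hA hB (hq0 _) (by positivity)
        _ = C0 ^ 2 * (b ^ 2 / ((j : ℝ) + 1) ^ 2) := by
          rw [← div_pow]
          ring
    rw [mul_min_of_nonneg _ _ (by positivity : (0 : ℝ) ≤ C0 ^ 2)]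
    exact le_min i1 i2
  have hC2 : 0 < C0 ^ 2 := by positivity
  have hθb : θ * b = 6 * M / R := by rw [hb]; field_simp
  rw [hgs]
  refine ⟨?_, ?_⟩
  · obtain ⟨S, hS1, -, hS⟩ := QGR_main n q κ (2 * C0 ^ 2 * M / R) (C0 ^ 2) θ b hθ0 hb0 (by positivity) hC2.le
      (fun z hz _ => hnear1 z hz) hfar
    rw [hθb] at hS1
    have h5 : ∑ z ∈ PR n, q z.1 * q z.2 ≤ 224 * C0 ^ 2 * M / R := by
      refine hS.trans ?_
      have h6 : 8 * C0 ^ 2 * S ≤ 8 * C0 ^ 2 * (3 * (6 * M / R)) := mul_le_mul_of_nonneg_left hS1 (by positivity)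
      refine (add_le_add_right h6 _).trans (le_of_eq ?_)
      ring
    calc (∑ z ∈ PR n, q z.1 * q z.2) * R ≤ 224 * C0 ^ 2 * M / R * R := mul_le_mul_of_nonneg_right h5 hR0.le
      _ = 224 * C0 ^ 2 * M := by field_simp
      _ ≤ 656 * C0 ^ 2 * M ^ 2 := by nlinarith [mul_pos hC2 (by linarith : (0 : ℝ) < M)]
  · obtain ⟨W, hW⟩ : ∃ W : ℝ, W = R * Real.sqrt R * θ := ⟨_, rfl⟩
    have hW0 : 0 < W := by rw [hW]; positivity
    obtain ⟨S, hS1, hS2, hS⟩ := QGR_main n q κ (2 * C0 ^ 2 * M ^ 2 / (R * Real.sqrt R * θ)) (C0 ^ 2) θ b hθ0 hb0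
      (by positivity) hC2.le (fun z hz _ => hnear2 z hz) hfar
    rw [← hW] at hS ⊢
    rw [hθb] at hS1
    have hSW : S * W ≤ 72 * M ^ 2 := by
      rcases le_total (Real.sqrt R * θ) 1 with hc | hc
      · calc S * W ≤ 3 * (6 * M / R) * W := mul_le_mul_of_nonneg_right hS1 hW0.le
          _ = 18 * M * (Real.sqrt R * θ) := by rw [hW]; field_simp; ring
          _ ≤ 18 * M * 1 := mul_le_mul_of_nonneg_left hc (by linarith)
          _ ≤ 72 * M ^ 2 := by nlinarith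
      · have e : 2 * b ^ 2 * W = 72 * M ^ 2 / (Real.sqrt R * θ) := by
          rw [hb, hW]
          have e1 : R = Real.sqrt R ^ 2 := by rw [sq, hss]
          field_simp
          rw [show Real.sqrt R ^ 2 = R by rw [sq, hss]]
          ring
        calc S * W ≤ 2 * b ^ 2 * W := mul_le_mul_of_nonneg_right hS2 hW0.le
          _ = 72 * M ^ 2 / (Real.sqrt R * θ) := e
          _ ≤ 72 * M ^ 2 := div_le_self (by positivity) hc
    calc (∑ z ∈ PR n, q z.1 * q z.2) * W ≤ (40 * (2 * C0 ^ 2 * M ^ 2 / W) + 8 * C0 ^ 2 * S) * W :=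
          mul_le_mul_of_nonneg_right hS hW0.le
      _ = 80 * C0 ^ 2 * M ^ 2 + 8 * C0 ^ 2 * (S * W) := by field_simp; ring
      _ ≤ 80 * C0 ^ 2 * M ^ 2 + 8 * C0 ^ 2 * (72 * M ^ 2) :=
          add_le_add_right (mul_le_mul_of_nonneg_left hSW (by positivity)) _
      _ = 656 * C0 ^ 2 * M ^ 2 := by ring

end

end Pool.Agent.LP
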