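import Pool.Agent.helper7.EP.AllH
import Pool.Agent.helper92.TPC.TWD
import Pool.Agent.helper49.LQ.AF1
import Pool.Agent.helper32.LQ.AF2
import Pool.Agent.helper52.LQ.AF3
import Pool.Agent.helper64.LQ.ALG
import Pool.Agent.helper57.LQ.BDA
import Pool.Agent.helper23.LQ.BDS
import Pool.Agent.helper88.LQ.DRP
import Pool.Agent.helper72.LQ.EXP
import Pool.Agent.helper14.LQ.FUN
import Pool.Agent.helper48.LQ.GKL
import Pool.Agent.helper23.LQ.GN2
import Pool.Agent.helper72.LQ.GN6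
import Pool.Agent.helper24.LQ.GRD
import Pool.Agent.helper43.LQ.HRC
import Pool.Agent.helper79.LQ.HT3
import Pool.Agent.helper88.LQ.HT5
import Pool.Agent.helper31.LQ.HT7
import Pool.Agent.helper13.LQ.KSB
import Pool.Agent.helper56.LQ.LMQ
import Pool.Agent.helper53.LQ.LVL
import Pool.Agent.helper24.LQ.ME3
import Pool.Agent.helper53.LQ.ME5
import Pool.Agent.helper25.LQ.ME7
import Pool.Agent.helper78.LQ.MEN
import Pool.Agent.helper97.LQ.NIL
import Pool.Agent.helper1.LQ.OTH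
import Pool.Agent.helper68.LQ.P3D
import Pool.Agent.helper72.LQ.PS1
import Pool.Agent.helper44.LQ.PSV
import Pool.Agent.helper45.LQ.Q7
import Pool.Agent.helper29.LQ.SDF
import Pool.Agent.helper53.LQ.SEL2
import Pool.Agent.helper72.LQ.SEL6
import Pool.Agent.helper89.LQ.SQ6
import Pool.Agent.helper62.LQ.SQR
import Pool.Agent.helper56.LQ.STR
import Pool.Agent.helper39.LQ.T7B
import Pool.Agent.helper8.LQ.TDL
import Pool.Agent.helper62.LQ.TGR
import Pool.Agent.helper56.LQ.UID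

/-!
# Project lq (MP_ebc808_nt), assembly
-/

set_option autoImplicit false

namespace Pool.Agent.LQ

theorem all_EXP : EXP_stmt := EXP
theorem all_TGR : TGR_stmt := TGR all_EXP
theorem all_GRD : GRD_stmt := GRD all_TGR
theorem all_TWD : Pool.Agent.TPC.TWD_stmt :=
  Pool.Agent.TPC.TWD Pool.Agent.EP.all_HM Pool.Agent.EP.INT4 Pool.Agent.EP.CM2 Pool.Agent.EP.WM
theorem all_TDL : TDL_stmt := TDL all_TWD Pool.Agent.EP.WM all_TGR all_EXP
theorem all_ME3 : ME3_stmt := ME3 all_TGR all_EXP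
theorem all_MEN : MEN_stmt := MEN Pool.Agent.EP.all_TW Pool.Agent.EP.all_NEG
theorem all_ME5 : ME5_stmt := ME5 all_MEN all_TGR all_EXP Pool.Agent.EP.WM
theorem all_ME7 : ME7_stmt := ME7 all_MEN all_TGR all_EXP Pool.Agent.EP.WM
theorem all_HT3 : HT3_stmt := HT3 all_ME3 all_TGR all_EXP
theorem all_GN2 : GN2_stmt := GN2 all_TDL all_HT3 HRC all_TGR all_EXP all_GRD
theorem all_HT5 : HT5_stmt := HT5 all_ME5 all_GN2 all_TGR all_EXP all_GRD
theorem all_HT7 : HT7_stmt := HT7 all_ME7 all_TDL all_TGR all_EXP all_GRD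
theorem all_GN6 : GN6_stmt := GN6 all_TDL HRC all_TGR
theorem all_ALG : ALG_stmt := ALG HRC
theorem all_AF1 : AF1_stmt := AF1 all_ALG
theorem all_AF2 : AF2_stmt := AF2 all_ALG
theorem all_SQR : SQR_stmt := SQR all_ALG all_AF1 all_AF2 AF3
theorem all_GKL : GKL_stmt := GKL all_GN2 all_ALG AF3 all_SQR all_AF2 SDF all_HT3 all_HT5
theorem all_DRP : DRP_stmt := DRP all_GN2 all_ALG AF3 FUN SDF all_GKL
theorem all_BDS : BDS_stmt := BDS all_GN2 all_ALG all_AF1 SDF all_GKL all_DRP all_GRD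
theorem all_SEL2 : SEL2_stmt := SEL2 all_TGR all_EXP
theorem all_SEL6 : SEL6_stmt := SEL6 all_TGR all_EXP
theorem all_KSB : KSB_stmt := KSB all_EXP all_TGR
theorem all_PS1 : PS1_stmt := PS1 all_TGR
theorem all_LVL : LVL_stmt := LVL all_SEL2 all_KSB all_PS1 all_TGR all_EXP
theorem all_BDA : BDA_stmt := BDA all_LVL all_BDS
theorem all_UID : UID_stmt := UID all_TGR all_ME3 all_EXP
theorem all_P3D : P3D_stmt := P3D all_UID all_TGR all_ME3
theorem all_PSV : PSV_stmt := PSV all_AF1 all_AF2 AF3 FUN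
theorem all_SQ6 : SQ6_stmt :=
  SQ6 all_BDA all_SEL6 all_KSB all_PS1 all_UID all_P3D all_GN6 all_PSV all_GRD all_TGR all_EXP
theorem all_SP6 : SP6_stmt := SP6 all_SQ6 all_PS1
theorem all_STR : STR_stmt := STR all_GN6 all_ALG AF3 FUN all_SQR all_SP6 all_PS1
theorem all_T7B : T7B_stmt := T7B all_GN6 all_ALG all_AF2 all_SQR all_SQ6 all_SP6 SDF all_HT7
theorem all_Q7 : Q7_stmt := Q7 all_TGR
theorem all_OTH : OTH_stmt := OTH all_GN6 all_ALG all_AF1 AF3 FUN all_GRD all_TGR all_HT7 all_Q7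
theorem all_LMQ : LMQ_stmt := LMQ all_GN6 HRC all_ALG AF3 all_STR all_T7B all_OTH

end Pool.Agent.LQ
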